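import Pool.Agent.helper45.TF.Defs2

/-!
Module GR: grid identity in a group of exponent 2.
-/

namespace Pool.Agent.helper45.TF

theorem GR_A {Q : Type} [AddCommGroup Q] (a : ℕ → ℕ → Q) (m : ℕ) :
    ∑ i ∈ Finset.range (m + 1), ∑ j ∈ Finset.range (m + 1 - i), a i j =
      (∑ i ∈ Finset.range m, ∑ j ∈ Finset.range (m - i), a i (j + 1)) +
        ∑ i ∈ Finset.range (m + 1), a i 0 := by
  have h1 : ∑ i ∈ Finset.range (m + 1), ∑ j ∈ Finset.range (m + 1 - i), a i j =
      ∑ i ∈ Finset.range (m + 1), ((∑ j ∈ Finset.range (m - i), a i (j + 1)) + a i 0) := by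
    apply Finset.sum_congr rfl
    intro i hi
    have hi' : i < m + 1 := Finset.mem_range.1 hi
    have h2 : m + 1 - i = (m - i) + 1 := by omega
    rw [h2, Finset.sum_range_succ']
  rw [h1, Finset.sum_add_distrib]
  congr 1
  rw [Finset.sum_range_succ, Nat.sub_self, Finset.range_zero, Finset.sum_empty, add_zero]

theorem GR_B {Q : Type} [AddCommGroup Q] (b : ℕ → ℕ → Q) (m : ℕ) :
    ∑ i ∈ Finset.range (m + 1), ∑ j ∈ Finset.range (m + 1 - i), b i j =
      (∑ i ∈ Finset.range m, ∑ j ∈ Finset.range (m - i), b (i + 1) j) +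
        ∑ j ∈ Finset.range (m + 1), b 0 j := by
  rw [Finset.sum_range_succ', Nat.sub_zero]
  congr 1
  apply Finset.sum_congr rfl
  intro i _
  rw [Nat.add_sub_add_right]

theorem GR_C {Q : Type} [AddCommGroup Q] (c : ℕ → ℕ → Q) (m : ℕ) :
    ∑ i ∈ Finset.range (m + 1), ∑ j ∈ Finset.range (m + 1 - i), c i j =
      (∑ i ∈ Finset.range m, ∑ j ∈ Finset.range (m - i), c i j) +
        ∑ j ∈ Finset.range (m + 1), c (m - j) j := by
  have h1 : ∑ i ∈ Finset.range (m + 1), ∑ j ∈ Finset.range (m + 1 - i), c i j =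
      ∑ i ∈ Finset.range (m + 1), ((∑ j ∈ Finset.range (m - i), c i j) + c i (m - i)) := by
    apply Finset.sum_congr rfl
    intro i hi
    have hi' : i < m + 1 := Finset.mem_range.1 hi
    have h2 : m + 1 - i = (m - i) + 1 := by omega
    rw [h2, Finset.sum_range_succ]
  rw [h1, Finset.sum_add_distrib]
  congr 1
  · rw [Finset.sum_range_succ, Nat.sub_self, Finset.range_zero, Finset.sum_empty, add_zero]
  · rw [← Finset.sum_range_reflect (fun j => c (m - j) j) (m + 1)]
    apply Finset.sum_congr rfl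
    intro i hi
    have hi' : i < m + 1 := Finset.mem_range.1 hi
    have h2 : m + 1 - 1 - i = m - i := by omega
    have h3 : m - (m - i) = i := by omega
    simp only [h2, h3]

theorem GR : GR_stmt := by
  intro Q _ E hQ n
  rcases n with _ | m
  · simp
  · have hA := GR_A (fun i j => E (i, j) (i + 1, j)) m
    have hB := GR_B (fun i j => E (i, j) (i, j + 1)) m
    have hC := GR_C (fun i j => E (i + 1, j) (i, j + 1)) m
    simp only [Nat.add_sub_cancel, Finset.sum_add_distrib]
    rw [hA, hB, hC]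
    have hlast : ∑ j ∈ Finset.range (m + 1), E (m - j + 1, j) (m - j, j + 1) =
        ∑ j ∈ Finset.range (m + 1), E (m + 1 - j, j) (m + 1 - j - 1, j + 1) := by
      apply Finset.sum_congr rfl
      intro j hj
      have hj' : j < m + 1 := Finset.mem_range.1 hj
      have h2 : m + 1 - j = m - j + 1 := by omega
      rw [h2, Nat.add_sub_cancel]
    rw [← hlast]
    set α := ∑ i ∈ Finset.range (m + 1), E (i, 0) (i + 1, 0)
    set β := ∑ j ∈ Finset.range (m + 1), E (0, j) (0, j + 1)
    set δ := ∑ j ∈ Finset.range (m + 1), E (m - j + 1, j) (m - j, j + 1)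
    set A2 := ∑ i ∈ Finset.range m, ∑ j ∈ Finset.range (m - i), E (i, j + 1) (i + 1, j + 1)
    set B2 := ∑ i ∈ Finset.range m, ∑ j ∈ Finset.range (m - i), E (i + 1, j) (i + 1, j + 1)
    set C2 := ∑ i ∈ Finset.range m, ∑ j ∈ Finset.range (m - i), E (i + 1, j) (i, j + 1)
    have hA2 := hQ A2
    have hB2 := hQ B2
    have hC2 := hQ C2
    calc A2 + α + (B2 + β) + (C2 + δ) + (C2 + B2 + A2)
        = (α + β + δ) + (A2 + A2) + (B2 + B2) + (C2 + C2) := by abel
      _ = α + β + δ := by rw [hA2, hB2, hC2, add_zero, add_zero, add_zero]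

end Pool.Agent.helper45.TF
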