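import Pool.Agent.helper45.TF.Defs2

/-!
Module VC: descend to the hull.
-/

namespace Pool.Agent.helper45.TF

/-- the descent to `H` inside a half-space -/
theorem VC_descend {V : Type} [Fintype V] [DecidableEq V] (S : ClosedSurface V) (p : V → E3)
    (H : Finset V) (h : Set E3) (a : E3)
    (hH : ∀ v ∉ H, ∃ w, S.Adj v w ∧ inner ℝ a (p w) < inner ℝ a (p v))
    (hh : ∀ y y' : E3, inner ℝ a y' < inner ℝ a y → y ∈ h → y' ∈ h) (u : V) (hu : p u ∈ h) :
    ∃ w ∈ H, p w ∈ h ∧
      Relation.ReflTransGen (fun a b : V => S.Adj a b ∧ p a ∈ h ∧ p b ∈ h) u w := by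
  have key : ∀ (n : ℕ) (u : V), p u ∈ h →
      (Finset.univ.filter (fun w : V => inner ℝ a (p w) < inner ℝ a (p u))).card ≤ n →
      ∃ w ∈ H, p w ∈ h ∧
        Relation.ReflTransGen (fun a b : V => S.Adj a b ∧ p a ∈ h ∧ p b ∈ h) u w := by
    intro n
    induction n with
    | zero =>
      intro u hu hc
      by_cases huH : u ∈ H
      · exact ⟨u, huH, hu, Relation.ReflTransGen.refl⟩
      · exfalso
        obtain ⟨w, _, hw⟩ := hH u huH
        have h0 : (Finset.univ.filter (fun w : V => inner ℝ a (p w) < inner ℝ a (p u))) = ∅ :=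
          Finset.card_eq_zero.1 (Nat.le_zero.1 hc)
        have h1 : w ∈ Finset.univ.filter (fun w : V => inner ℝ a (p w) < inner ℝ a (p u)) :=
          Finset.mem_filter.2 ⟨Finset.mem_univ w, hw⟩
        rw [h0] at h1
        exact absurd h1 (Finset.notMem_empty w)
    | succ n ih =>
      intro u hu hc
      by_cases huH : u ∈ H
      · exact ⟨u, huH, hu, Relation.ReflTransGen.refl⟩
      · obtain ⟨w, hadj, hw⟩ := hH u huH
        have hwh : p w ∈ h := hh _ _ hw hu
        have hlt : (Finset.univ.filter (fun x : V => inner ℝ a (p x) < inner ℝ a (p w))).card <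
            (Finset.univ.filter (fun x : V => inner ℝ a (p x) < inner ℝ a (p u))).card := by
          apply Finset.card_lt_card
          rw [Finset.ssubset_iff_of_subset]
          · exact ⟨w, Finset.mem_filter.2 ⟨Finset.mem_univ w, hw⟩, fun hx =>
              lt_irrefl _ (Finset.mem_filter.1 hx).2⟩
          · intro x hx
            exact Finset.mem_filter.2 ⟨Finset.mem_univ x, (Finset.mem_filter.1 hx).2.trans hw⟩
        obtain ⟨w', hw'H, hw'h, hr⟩ := ih w hwh (by omega)
        exact ⟨w', hw'H, hw'h, Relation.ReflTransGen.head ⟨hadj, hu, hwh⟩ hr⟩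
  exact key _ u hu le_rfl

theorem VC : VC_stmt := by
  intro V _ _ S p H hS h hh u v hu hv
  obtain ⟨a, ha, c, hc⟩ := hh
  have hmono : ∀ y y' : E3, inner ℝ a y' < inner ℝ a y → y ∈ h → y' ∈ h := by
    intro y y' hlt hy
    rcases hc with hc | hc
    · rw [hc] at hy ⊢
      exact (le_of_lt hlt).trans hy
    · rw [hc] at hy ⊢
      exact lt_trans hlt hy
  have hdesc := VC_descend S p H h a (fun v hv => hS.2 v hv a ha) hmono
  obtain ⟨w, hwH, hwh, hrw⟩ := hdesc u hu
  obtain ⟨w', hwH', hwh', hrw'⟩ := hdesc v hv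
  have hsymm : ∀ x y : V,
      Relation.ReflTransGen (fun a b : V => S.Adj a b ∧ p a ∈ h ∧ p b ∈ h) x y →
      Relation.ReflTransGen (fun a b : V => S.Adj a b ∧ p a ∈ h ∧ p b ∈ h) y x := by
    intro x y hxy
    induction hxy with
    | refl => exact Relation.ReflTransGen.refl
    | tail _ hbc ih =>
      obtain ⟨⟨s, hs, h1, h2⟩, h3, h4⟩ := hbc
      exact Relation.ReflTransGen.head ⟨⟨s, hs, h2, h1⟩, h4, h3⟩ ih
  exact (hrw.tail ⟨hS.1 w hwH w' hwH', hwh, hwh'⟩).trans (hsymm _ _ hrw')

end Pool.Agent.helper45.TF
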